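import Pool.Agent.helper37.CZ.Spec

/-! # cz:DEX: the determinant of an exponential -/

set_option autoImplicit false

open scoped Matrix Topology ComplexConjugate
open Filter

namespace Pool.Agent.CZ

attribute [local instance] Matrix.linftyOpNormedRing Matrix.linftyOpNormedAlgebra

private lemma DEX_diff (n : Type) [Fintype n] [DecidableEq n] :
    Differentiable ℂ (fun A : Matrix n n ℂ => A.det) := by
  have h : (fun A : Matrix n n ℂ => A.det) =
      fun A : Matrix n n ℂ => ∑ σ : Equiv.Perm n, ((Equiv.Perm.sign σ : ℤ) : ℂ) * ∏ i, A (σ i) i := by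
    funext A; rw [Matrix.det_apply']
  rw [h]
  have he : ∀ i j : n, Differentiable ℂ (fun A : Matrix n n ℂ => A i j) := by
    intro i j
    have : (fun A : Matrix n n ℂ => A i j) =
        fun A => (LinearMap.toContinuousLinearMap (Matrix.entryLinearMap ℂ ℂ i j)) A := by
      funext A; rfl
    rw [this]
    exact ContinuousLinearMap.differentiable _
  fun_prop

private lemma DEX_one (n : Type) [Fintype n] [DecidableEq n] (M : Matrix n n ℂ) :
    HasDerivAt (fun h : ℂ => (1 + h • M).det) M.trace 0 := by
  have h : (fun h : ℂ => (1 + h • M).det) = fun h : ℂ => 1 + M.trace * h +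
      ((1 + (Polynomial.X : Polynomial ℂ) • M.map Polynomial.C).det.divX.divX.eval h) * h ^ 2 := by
    funext h
    rw [Matrix.det_one_add_smul]
  rw [h]
  have h1 : HasDerivAt (fun h : ℂ => 1 + M.trace * h) M.trace 0 := by
    simpa using ((hasDerivAt_id (0 : ℂ)).const_mul M.trace).const_add 1
  have h2 := ((Polynomial.hasDerivAt
    (1 + (Polynomial.X : Polynomial ℂ) • M.map Polynomial.C).det.divX.divX (0 : ℂ)).mul
      (hasDerivAt_pow 2 (0 : ℂ)))
  have h3 := h1.add h2
  refine h3.congr_deriv ?_
  simp

theorem DEX : DEX_stmt := by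
  intro n _ _ M
  have hD := (DEX_diff n 1).hasFDerivAt
  set D := fderiv ℂ (fun A : Matrix n n ℂ => A.det) 1 with hDdef
  have hDM : D M = M.trace := by
    have h1 : HasDerivAt (fun h : ℂ => (1 : Matrix n n ℂ) + h • M) M 0 := by
      have h0 := ((hasDerivAt_id (0 : ℂ)).smul_const M).const_add (1 : Matrix n n ℂ)
      rw [one_smul] at h0
      exact h0
    have h2 : HasFDerivAt (fun A : Matrix n n ℂ => A.det) D ((1 : Matrix n n ℂ) + (0 : ℂ) • M) := by
      simpa using hD
    exact (h2.comp_hasDerivAt (0 : ℂ) h1).unique (DEX_one n M)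
  have hE : HasDerivAt (fun h : ℂ => (NormedSpace.exp (h • M)).det) M.trace 0 := by
    have h1 : HasDerivAt (fun h : ℂ => NormedSpace.exp (h • M)) M 0 := by
      have h0 := hasDerivAt_exp_smul_const (𝕂 := ℂ) M (0 : ℂ)
      rw [zero_smul, NormedSpace.exp_zero, one_mul] at h0
      exact h0
    have h2 : HasFDerivAt (fun A : Matrix n n ℂ => A.det) D (NormedSpace.exp ((0 : ℂ) • M)) := by
      simpa using hD
    have h3 := h2.comp_hasDerivAt (0 : ℂ) h1
    have h4 : D M = M.trace := hDM
    exact h4 ▸ h3
  have hadd : ∀ t h : ℂ, (NormedSpace.exp ((t + h) • M)).det =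
      (NormedSpace.exp (t • M)).det * (NormedSpace.exp (h • M)).det := by
    intro t h
    rw [← Matrix.det_mul, add_smul, Matrix.exp_add_of_commute]
    exact (Commute.refl M).smul_left t |>.smul_right h
  have hf : ∀ t : ℂ, HasDerivAt (fun t : ℂ => (NormedSpace.exp (t • M)).det)
      ((NormedSpace.exp (t • M)).det * M.trace) t := by
    intro t
    have h1 : HasDerivAt (fun s : ℂ => (NormedSpace.exp (t • M)).det *
        (NormedSpace.exp ((s - t) • M)).det) ((NormedSpace.exp (t • M)).det * M.trace) t := by
      have h2 : HasDerivAt (fun h : ℂ => (NormedSpace.exp (h • M)).det) M.trace (t - t) := by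
        simpa using hE
      have h4 : HasDerivAt (fun s : ℂ => s - t) 1 t := (hasDerivAt_id t).sub_const t
      have h3 := HasDerivAt.comp (h := fun s : ℂ => s - t) t h2 h4
      simpa [Function.comp_def] using h3.const_mul ((NormedSpace.exp (t • M)).det)
    have : (fun s : ℂ => (NormedSpace.exp (s • M)).det) =
        fun s : ℂ => (NormedSpace.exp (t • M)).det * (NormedSpace.exp ((s - t) • M)).det := by
      funext s
      rw [← hadd]; congr 3; ring
    rw [this]
    exact h1
  have hF : ∀ t : ℂ, HasDerivAt (fun t : ℂ => (NormedSpace.exp (t • M)).det *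
      Complex.exp (-(t * M.trace))) 0 t := by
    intro t
    have h1 : HasDerivAt (fun t : ℂ => Complex.exp (-(t * M.trace)))
        (Complex.exp (-(t * M.trace)) * (-M.trace)) t := by
      have := ((hasDerivAt_id t).mul_const M.trace).neg.cexp
      simpa using this
    refine ((hf t).mul h1).congr_deriv ?_
    ring
  have hconst := is_const_of_deriv_eq_zero (fun t => (hF t).differentiableAt)
    (fun t => (hF t).deriv) 1 0
  simp only [one_smul, one_mul, zero_smul, NormedSpace.exp_zero, Matrix.det_one, zero_mul, neg_zero,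
    Complex.exp_zero, mul_one] at hconst
  have h2 : (NormedSpace.exp M).det = (NormedSpace.exp M).det * Complex.exp (-M.trace) *
      Complex.exp M.trace := by
    rw [mul_assoc, ← Complex.exp_add]; simp
  rw [h2, hconst, one_mul]

end Pool.Agent.CZ
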